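import Pool.Agent.H295R2.Beu.Defs

/-!
# Task B3b: the tail transform is square integrable
-/

set_option autoImplicit false

open MeasureTheory Filter Topology Set

namespace Pool.Agent.H896R2.Beu

open Pool.Agent.H295R2 Pool.Agent.H295R2.Beu

noncomputable section

lemma Mx_measurable : Measurable Mx := by
  have : Mx = (fun n : ℕ => ∑ k ∈ Finset.Icc 1 n, mu k) ∘ (fun y : ℝ => ⌊y⌋₊) := rfl
  rw [this]
  exact (Measurable.of_discrete).comp Nat.measurable_floor

/-- the tail in the variable `x = log u` -/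
def kt (N : ℕ) (x : ℝ) : ℂ :=
  (Ioi (Real.log N)).indicator (fun x : ℝ => ((Mx (Real.exp x) - Mx N : ℝ) : ℂ)) x

lemma kt_measurable (N : ℕ) : Measurable (kt N) := by
  refine Measurable.indicator ?_ measurableSet_Ioi
  exact Complex.measurable_ofReal.comp ((Mx_measurable.comp Real.measurable_exp).sub_const _)

lemma kt_nice {N : ℕ} (hN : 1 ≤ N) {C a : ℝ} (ha : 0 ≤ a) (hC : 0 < C)
    (hM : ∀ y : ℝ, 1 ≤ y → |Mx y| ≤ C * y ^ a) : Nice (kt N) (2 * C) a 0 where
  meas := kt_measurable N
  bound := by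
    intro u
    have hN0 : (0:ℝ) < N := by exact_mod_cast hN
    have hN1 : (1:ℝ) ≤ N := by exact_mod_cast hN
    by_cases hu : u ∈ Ioi (Real.log N)
    · unfold kt
      rw [indicator_of_mem hu, Complex.norm_real, Real.norm_eq_abs]
      have h1 : (N:ℝ) < Real.exp u := by
        rw [← Real.log_lt_iff_lt_exp hN0]
        exact hu
      have h2 := hM (Real.exp u) (by linarith)
      have h3 := hM N hN1
      have h4 : (N:ℝ) ^ a ≤ Real.exp u ^ a := Real.rpow_le_rpow hN0.le h1.le ha
      have h5 : Real.exp u ^ a = Real.exp (a * u) := by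
        rw [← Real.exp_mul, mul_comm]
      rw [h5] at h2 h4
      calc |Mx (Real.exp u) - Mx N| ≤ |Mx (Real.exp u)| + |Mx N| := abs_sub _ _
        _ ≤ C * Real.exp (a * u) + C * Real.exp (a * u) :=
          add_le_add h2 (h3.trans (mul_le_mul_of_nonneg_left h4 hC.le))
        _ = 2 * C * Real.exp (a * u) := by ring
    · unfold kt
      rw [indicator_of_notMem hu, norm_zero]
      positivity
  zero := by
    intro u hu
    unfold kt
    rw [indicator_of_notMem]
    have hN1 : (1:ℝ) ≤ N := by exact_mod_cast hN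
    have := Real.log_nonneg hN1
    simp only [mem_Ioi, not_lt]
    linarith

lemma GG_eq_Lap {N : ℕ} (hN : 1 ≤ N) (s : ℂ) : GG N s = Lap (kt N) s := by
  have hN0 : (0:ℝ) < N := by exact_mod_cast hN
  unfold GG Lap
  have him : Real.exp '' Ioi (Real.log N) = Ioi (N:ℝ) := by
    ext y
    simp only [mem_image, mem_Ioi]
    constructor
    · rintro ⟨x, hx, rfl⟩
      exact (Real.log_lt_iff_lt_exp hN0).mp hx
    · intro hy
      have hy0 : 0 < y := hN0.trans hy
      exact ⟨Real.log y, Real.log_lt_log hN0 hy, Real.exp_log hy0⟩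
  rw [← him, integral_image_eq_integral_abs_deriv_smul (f' := Real.exp) measurableSet_Ioi
    (fun x _ => (Real.hasDerivAt_exp x).hasDerivWithinAt) Real.exp_injective.injOn]
  rw [← integral_indicator measurableSet_Ioi]
  refine integral_congr_ae (Eventually.of_forall fun x => ?_)
  by_cases hx : x ∈ Ioi (Real.log N)
  · simp only [kt]
    rw [indicator_of_mem hx, indicator_of_mem hx, abs_of_pos (Real.exp_pos x)]
    have hne : (Real.exp x : ℂ) ≠ 0 := by exact_mod_cast (Real.exp_pos x).ne'
    have h1 : (Real.exp x : ℂ) ^ (-s - 1) = Complex.exp (-(s * x)) * (Real.exp x : ℂ)⁻¹ := by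
      rw [Complex.cpow_def_of_ne_zero hne, ← Complex.ofReal_log (Real.exp_pos x).le, Real.log_exp,
        Complex.ofReal_exp, ← Complex.exp_neg, ← Complex.exp_add]
      congr 1
      ring
    rw [h1, Complex.real_smul]
    field_simp
  · simp only [kt]
    rw [indicator_of_notMem hx, indicator_of_notMem hx, zero_mul]

theorem tailL2 : TailL2 := by
  intro θ σ hθ hσ hσ1 hz
  obtain ⟨C, hC0, hC⟩ := mertens_bound (σ := (θ + σ) / 2) hθ hz (by linarith) (by linarith)
  refine ⟨2 * Real.pi * ((2 * C) ^ 2 * (1 / (σ - θ))), ?_, ?_⟩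
  · have : 0 < σ - θ := by linarith
    have := Real.pi_pos
    positivity
  · intro N hN
    have hk := kt_nice hN (by linarith : (0:ℝ) ≤ (θ + σ) / 2) hC0 hC
    obtain ⟨p1, p2⟩ := plancherel_Lap hk (by linarith : (θ + σ) / 2 < σ)
    have hpi : (2 * Real.pi) ≠ 0 := by positivity
    -- scaling
    have e1 : (fun ξ : ℝ => ‖Lap (kt N) (σ + 2 * Real.pi * ξ * Complex.I)‖ ^ 2) =
        fun ξ : ℝ => (fun t : ℝ => ‖GG N (σ + t * Complex.I)‖ ^ 2) (2 * Real.pi * ξ) := by
      funext ξ
      simp only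
      rw [GG_eq_Lap hN]
      push_cast
      rfl
    rw [e1] at p1 p2
    have q1 : Integrable (fun t : ℝ => ‖GG N (σ + t * Complex.I)‖ ^ 2) :=
      (integrable_comp_mul_left_iff _ hpi).mp p1
    refine ⟨q1, ?_⟩
    have q2 := Measure.integral_comp_mul_left (fun t : ℝ => ‖GG N (σ + t * Complex.I)‖ ^ 2)
      (2 * Real.pi)
    rw [q2, smul_eq_mul, abs_of_pos (by positivity)] at p2
    have q3 : ∫ t : ℝ, ‖GG N (σ + t * Complex.I)‖ ^ 2 =
        2 * Real.pi * ∫ u : ℝ, ‖kt N u‖ ^ 2 * Real.exp (-(2 * σ * u)) := by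
      rw [← p2, ← mul_assoc, mul_inv_cancel₀ hpi, one_mul]
    rw [q3]
    refine mul_le_mul_of_nonneg_left ?_ (by positivity)
    have hb : θ - σ < 0 := by linarith
    have hi := integrable_ind_exp hb ((2 * C) ^ 2) 0
    have hv := integral_ind_exp hb ((2 * C) ^ 2) 0
    rw [mul_zero, Real.exp_zero] at hv
    have hv' : (2 * C) ^ 2 * (-1 / (θ - σ)) = (2 * C) ^ 2 * (1 / (σ - θ)) := by
      congr 1
      rw [div_eq_div_iff (by linarith) (by linarith)]
      ring
    rw [← hv', ← hv]
    refine integral_mono_of_nonneg (Eventually.of_forall fun u => by positivity) hi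
      (Eventually.of_forall fun u => ?_)
    change ‖kt N u‖ ^ 2 * Real.exp (-(2 * σ * u)) ≤
      (Ici (0:ℝ)).indicator (fun u => (2 * C) ^ 2 * Real.exp ((θ - σ) * u)) u
    by_cases hu : u ∈ Ici (0:ℝ)
    · rw [indicator_of_mem hu]
      have h1 := hk.bound u
      calc ‖kt N u‖ ^ 2 * Real.exp (-(2 * σ * u))
          ≤ (2 * C * Real.exp ((θ + σ) / 2 * u)) ^ 2 * Real.exp (-(2 * σ * u)) := by
            gcongr
        _ = (2 * C) ^ 2 * Real.exp ((θ - σ) * u) := by
            rw [mul_pow, ← Real.exp_nat_mul, mul_assoc, ← Real.exp_add]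
            congr 2
            push_cast
            ring
    · rw [indicator_of_notMem hu, hk.zero u (by simpa using hu)]
      simp

end

end Pool.Agent.H896R2.Beu
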